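import Mathlib

/-!
List edge colouring of graphs with small degeneracy, deterministic part.

`B v` is the set of earlier neighbours of `v`, `fw B u` the set of later neighbours of `u`.
`L u v` (`u ∈ B v`) is the list of the edge `uv`.
-/

set_option autoImplicit false

namespace Pool.Agent.Helper21.LEC

open Finset

variable {V : Type*} [Fintype V] [DecidableEq V] {C : Type*} [Fintype C] [DecidableEq C]
  {M : ℕ} [NeZero M]

/-- later neighbours of `u` -/
def fw (B : V → Finset V) (u : V) : Finset V := univ.filter fun v => u ∈ B v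

theorem mem_fw {B : V → Finset V} {u v : V} : v ∈ fw B u ↔ u ∈ B v := by simp [fw]

/-- colour `c` lies in the palette of `uv` and in no other palette of an edge from `v` to `B v`
(`y` is the random vector at `v` for colour `c`) -/
def hitY (B : V → Finset V) (u v : V) (y : V → Fin M) : Prop :=
  y u = 0 ∧ ∀ w ∈ B v, w ≠ u → y w ≠ 0

instance (B : V → Finset V) (u v : V) (y : V → Fin M) : Decidable (hitY B u v y) := by
  unfold hitY; infer_instance

/-- allowed colours of the edge `uv` -/
def Al (B : V → Finset V) (L : V → V → Finset C) (ω : V → C → V → Fin M) (u v : V) : Finset C :=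
  (L u v).filter fun c => hitY B u v (ω v c)

/-- colours lying in some palette of an edge from `u` to `B u` -/
def Qu (B : V → Finset V) (ω : V → C → V → Fin M) (u : V) : Finset C :=
  univ.filter fun c => ∃ w ∈ B u, ω u c w = 0

/-- the good event at `u` -/
def Good (B : V → Finset V) (L : V → V → Finset C) (N : V → ℕ) (u : V)
    (ω : V → C → V → Fin M) : Prop :=
  ∀ S ⊆ fw B u,
    (32 * #S ≤ N u → #S ≤ #(S.biUnion fun v => Al B L ω u v \ Qu B ω u)) ∧
    (N u < 32 * #S → #S + #(B u) ≤ #(S.biUnion fun v => Al B L ω u v))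

/-- a star can be coloured for every history -/
theorem star_hall [Nonempty C] {B : V → Finset V} {L : V → V → Finset C} {N : V → ℕ} {u : V}
    {ω : V → C → V → Fin M} (h : Good B L N u ω) (Z : Finset C) (hZ : Z ⊆ Qu B ω u)
    (hZc : #Z ≤ #(B u)) :
    ∃ f : V → C, (∀ v ∈ fw B u, f v ∈ Al B L ω u v ∧ f v ∉ Z) ∧
      ∀ v ∈ fw B u, ∀ v' ∈ fw B u, f v = f v' → v = v' := by
  classical
  have key : ∀ s : Finset (fw B u), #s ≤ #(s.biUnion fun v => Al B L ω u v.1 \ Z) := by
    intro s
    set S : Finset V := s.map ⟨Subtype.val, Subtype.val_injective⟩ with hS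
    have hcard : #S = #s := by rw [hS, card_map]
    have hsub : S ⊆ fw B u := by
      intro v hv
      rw [hS, mem_map] at hv
      obtain ⟨x, _, rfl⟩ := hv
      exact x.2
    have hbi : s.biUnion (fun v => Al B L ω u v.1 \ Z) = S.biUnion fun v => Al B L ω u v \ Z := by
      ext c
      simp only [mem_biUnion, hS, mem_map, Function.Embedding.coeFn_mk]
      constructor
      · rintro ⟨a, ha, hc⟩; exact ⟨a.1, ⟨a, ha, rfl⟩, hc⟩
      · rintro ⟨a, ⟨b, hb, rfl⟩, hc⟩; exact ⟨b, hb, hc⟩
    rw [hbi, ← hcard]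
    obtain ⟨h1, h2⟩ := h S hsub
    by_cases hc : 32 * #S ≤ N u
    · refine (h1 hc).trans (card_le_card ?_)
      intro c hc
      rw [mem_biUnion] at *
      obtain ⟨v, hv, hc⟩ := hc
      rw [mem_sdiff] at hc
      exact ⟨v, hv, mem_sdiff.2 ⟨hc.1, fun hz => hc.2 (hZ hz)⟩⟩
    · have h3 := h2 (not_le.1 hc)
      have h4 : S.biUnion (fun v => Al B L ω u v) \ Z = S.biUnion fun v => Al B L ω u v \ Z := by
        ext c; simp only [mem_sdiff, mem_biUnion]
        constructor
        · rintro ⟨⟨v, hv, hc⟩, hz⟩; exact ⟨v, hv, hc, hz⟩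
        · rintro ⟨v, hv, hc, hz⟩; exact ⟨⟨v, hv, hc⟩, hz⟩
      rw [← h4]
      have h5 := Finset.le_card_sdiff Z (S.biUnion fun v => Al B L ω u v)
      omega
  obtain ⟨f, hf, hf2⟩ := (Finset.all_card_le_biUnion_card_iff_exists_injective
    (fun v : fw B u => Al B L ω u v.1 \ Z)).1 key
  refine ⟨fun v => if hv : v ∈ fw B u then f ⟨v, hv⟩ else Classical.arbitrary C, ?_, ?_⟩
  · intro v hv
    simp only [hv, dif_pos]
    have := hf2 ⟨v, hv⟩
    rw [mem_sdiff] at this
    exact this
  · intro v hv v' hv' he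
    simp only [hv, hv', dif_pos] at he
    have := hf he
    simpa using this

/-- star by star colouring -/
theorem exists_phi [Nonempty C] {B : V → Finset V} (r : V → ℕ) (hr : Function.Injective r)
    (hB : ∀ v, ∀ u ∈ B v, r u < r v) {L : V → V → Finset C} {N : V → ℕ}
    {ω : V → C → V → Fin M} (h : ∀ u, Good B L N u ω) :
    ∃ φ : V → V → C, (∀ u, ∀ v ∈ fw B u, φ u v ∈ Al B L ω u v) ∧
      (∀ u, ∀ v ∈ fw B u, ∀ v' ∈ fw B u, φ u v = φ u v' → v = v') ∧
      (∀ u, ∀ w ∈ B u, ∀ v ∈ fw B u, φ w u ≠ φ u v) := by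
  have main : ∀ j : ℕ, ∃ φ : V → V → C, ∀ u, r u < j →
      (∀ v ∈ fw B u, φ u v ∈ Al B L ω u v) ∧
      (∀ v ∈ fw B u, ∀ v' ∈ fw B u, φ u v = φ u v' → v = v') ∧
      (∀ w ∈ B u, ∀ v ∈ fw B u, φ w u ≠ φ u v) := by
    intro j
    induction j with
    | zero => exact ⟨fun _ _ => Classical.arbitrary C, fun u hu => absurd hu (Nat.not_lt_zero _)⟩
    | succ j ih =>
      obtain ⟨φ, hφ⟩ := ih
      by_cases hex : ∃ u0, r u0 = j
      · obtain ⟨u0, hu0⟩ := hex
        set Z : Finset C := (B u0).image fun w => φ w u0 with hZ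
        have hZQ : Z ⊆ Qu B ω u0 := by
          intro c hc
          rw [hZ, mem_image] at hc
          obtain ⟨w, hw, rfl⟩ := hc
          have h1 := (hφ w (hu0 ▸ hB u0 w hw)).1 u0 (mem_fw.2 hw)
          rw [Al, mem_filter] at h1
          rw [Qu, mem_filter]
          exact ⟨mem_univ _, w, hw, h1.2.1⟩
        obtain ⟨f, hf1, hf2⟩ := star_hall (h u0) Z hZQ card_image_le
        refine ⟨fun u v => if u = u0 then f v else φ u v, ?_⟩
        intro u hu
        by_cases hcu : u = u0
        · subst hcu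
          refine ⟨fun v hv => by simpa using (hf1 v hv).1, fun v hv v' hv' he => by
            simp only [if_true] at he; exact hf2 v hv v' hv' he, ?_⟩
          intro w hw v hv he
          have hwu : w ≠ u := by
            rintro rfl; exact lt_irrefl _ (hB w w hw)
          simp only [hwu, if_false, if_true] at he
          exact (hf1 v hv).2 (he ▸ mem_image_of_mem _ hw)
        · have hu' : r u < j := by
            have : r u ≠ j := fun hh => hcu (hr (hh.trans hu0.symm))
            omega
          obtain ⟨g1, g2, g3⟩ := hφ u hu'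
          refine ⟨fun v hv => by simpa [hcu] using g1 v hv, fun v hv v' hv' he => by
            simp only [hcu, if_false] at he; exact g2 v hv v' hv' he, ?_⟩
          intro w hw v hv he
          have hwu : w ≠ u0 := by
            rintro rfl
            have := hB u w hw
            omega
          simp only [hwu, hcu, if_false] at he
          exact g3 w hw v hv he
      · refine ⟨φ, fun u hu => hφ u ?_⟩
        have : r u ≠ j := fun hh => hex ⟨u, hh⟩
        omega
  obtain ⟨φ, hφ⟩ := main (univ.sup r + 1)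
  have hlt : ∀ u, r u < univ.sup r + 1 := fun u =>
    Nat.lt_succ_of_le (le_sup (f := r) (mem_univ u))
  exact ⟨φ, fun u => (hφ u (hlt u)).1, fun u => (hφ u (hlt u)).2.1, fun u => (hφ u (hlt u)).2.2⟩

/-- conclusion of the deterministic part: a list edge colouring, described on pairs -/
theorem exists_colouring [Nonempty C] {B : V → Finset V} (r : V → ℕ) (hr : Function.Injective r)
    (hB : ∀ v, ∀ u ∈ B v, r u < r v) {L : V → V → Finset C} {N : V → ℕ}
    {ω : V → C → V → Fin M} (h : ∀ u, Good B L N u ω) :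
    ∃ φ : V → V → C, (∀ v, ∀ u ∈ B v, φ u v ∈ L u v) ∧
      (∀ v, ∀ u ∈ B v, ∀ u' ∈ B v, φ u v = φ u' v → u = u') ∧
      (∀ u, ∀ v ∈ fw B u, ∀ v' ∈ fw B u, φ u v = φ u v' → v = v') ∧
      (∀ u, ∀ w ∈ B u, ∀ v ∈ fw B u, φ w u ≠ φ u v) := by
  obtain ⟨φ, h1, h2, h3⟩ := exists_phi r hr hB h
  refine ⟨φ, fun v u hu => ?_, ?_, h2, h3⟩
  · have := h1 u v (mem_fw.2 hu)
    rw [Al, mem_filter] at this
    exact this.1
  · intro v u hu u' hu' he
    by_contra hne
    have a1 := h1 u v (mem_fw.2 hu)
    have a2 := h1 u' v (mem_fw.2 hu')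
    rw [Al, mem_filter] at a1 a2
    rw [he] at a1
    exact a1.2.2 u' hu' (Ne.symm hne) a2.2.1

end Pool.Agent.Helper21.LEC
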