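import Mathlib
import Pool.Agent.Helper21.LEC.Det

/-!
Probability computations on finite product spaces, for one colour and for all colours.
-/

set_option autoImplicit false

namespace Pool.Agent.Helper21.LEC

open Finset

section general

set_option linter.unusedSectionVars false
set_option linter.unusedVariables false

variable {V : Type*} [Fintype V] [DecidableEq V] {Y : Type*} [Fintype Y] [DecidableEq Y]
  [Nonempty Y]

/-- normalised measure -/
noncomputable def pr {α : Type*} [Fintype α] (s : Finset α) : ℝ := (#s : ℝ) / Fintype.card α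

theorem pr_nonneg {α : Type*} [Fintype α] (s : Finset α) : 0 ≤ pr s := by unfold pr; positivity

theorem pr_univ {α : Type*} [Fintype α] [Nonempty α] : pr (univ : Finset α) = 1 := by
  unfold pr; rw [card_univ]; exact div_self (by positivity)

theorem pr_compl {α : Type*} [Fintype α] [DecidableEq α] [Nonempty α] (s : Finset α) :
    pr sᶜ = 1 - pr s := by
  unfold pr
  have h : (0 : ℝ) < Fintype.card α := by positivity
  rw [card_compl, Nat.cast_sub (card_le_univ s)]
  field_simp

theorem pr_le_one {α : Type*} [Fintype α] [Nonempty α] (s : Finset α) : pr s ≤ 1 := by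
  unfold pr
  rw [div_le_one (by positivity)]
  exact_mod_cast card_le_univ s

theorem pr_piFinset (T : V → Finset Y) : pr (Fintype.piFinset T) = ∏ v, pr (T v) := by
  unfold pr
  rw [Fintype.card_piFinset, Fintype.card_fun, Nat.cast_prod, Nat.cast_pow, Finset.prod_div_distrib,
    prod_const, card_univ]

/-- one colour: the probability that the colour is not good -/
theorem one_colour (u : V) (Sc : Finset V) (hu : u ∉ Sc) (Ys : Finset Y) (H : V → Finset Y)
    (q y : ℝ) (hq : ∀ v ∈ Sc, q ≤ pr (H v)) (hq1 : q ≤ 1) (hy : y ≤ pr Ys) (hy0 : 0 ≤ y)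
    (hq0 : 0 ≤ q)
    (lam : ℝ) (hl : lam ≤ 1) :
    ∑ x : V → Y, (if x u ∈ Ys ∧ ∃ v ∈ Sc, x v ∈ H v then lam else 1)
      ≤ Fintype.card (V → Y) * (1 - (1 - lam) * y * (1 - (1 - q) ^ #Sc)) := by
  classical
  set A : Finset (V → Y) := univ.filter fun x => x u ∈ Ys ∧ ∃ v ∈ Sc, x v ∈ H v with hA
  set A1 : Finset (V → Y) := Fintype.piFinset fun v => if v = u then Ys else univ with hA1
  set A2 : Finset (V → Y) := Fintype.piFinset fun v =>
    if v = u then Ys else if v ∈ Sc then (H v)ᶜ else univ with hA2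
  have hA1m : ∀ x, x ∈ A1 ↔ x u ∈ Ys := by
    intro x
    rw [hA1, Fintype.mem_piFinset]
    constructor
    · intro h; simpa using h u
    · intro h v
      by_cases hv : v = u
      · subst hv; simpa using h
      · simp [hv]
  have hA2m : ∀ x, x ∈ A2 ↔ x u ∈ Ys ∧ ∀ v ∈ Sc, x v ∉ H v := by
    intro x
    rw [hA2, Fintype.mem_piFinset]
    constructor
    · intro h
      refine ⟨by simpa using h u, fun v hv => ?_⟩
      have hvu : v ≠ u := fun hh => hu (hh ▸ hv)
      simpa [hvu, hv] using h v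
    · rintro ⟨h1, h2⟩ v
      by_cases hv : v = u
      · subst hv; simpa using h1
      · by_cases hv' : v ∈ Sc
        · simpa [hv, hv'] using h2 v hv'
        · simp [hv, hv']
  have hsub : A2 ⊆ A1 := by
    intro x hx
    rw [hA1m]; rw [hA2m] at hx; exact hx.1
  have hAeq : A = A1 \ A2 := by
    ext x
    rw [mem_sdiff, hA1m, hA2m, hA, mem_filter]
    constructor
    · rintro ⟨-, h1, v, hv, h2⟩
      exact ⟨h1, fun h3 => h3.2 v hv h2⟩
    · rintro ⟨h1, h2⟩
      refine ⟨mem_univ _, h1, ?_⟩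
      by_contra h3
      push Not at h3
      exact h2 ⟨h1, h3⟩
  have hsum : ∑ x : V → Y, (if x u ∈ Ys ∧ ∃ v ∈ Sc, x v ∈ H v then lam else 1)
      = Fintype.card (V → Y) * (1 - (1 - lam) * pr A) := by
    have h0 : (0 : ℝ) < Fintype.card (V → Y) := by positivity
    have h1 : ∀ x : V → Y, (if x u ∈ Ys ∧ ∃ v ∈ Sc, x v ∈ H v then lam else 1)
        = 1 - (1 - lam) * (if x ∈ A then 1 else 0) := by
      intro x
      by_cases hx : x u ∈ Ys ∧ ∃ v ∈ Sc, x v ∈ H v
      · simp [hA, hx]
      · simp [hA, hx]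
    rw [Finset.sum_congr rfl fun x _ => h1 x, sum_sub_distrib, ← mul_sum, sum_ite_mem]
    simp only [univ_inter, sum_const, nsmul_eq_mul, mul_one, card_univ]
    unfold pr
    field_simp
  have hprA : pr A = pr A1 - pr A2 := by
    rw [hAeq]
    unfold pr
    rw [card_sdiff_of_subset hsub, Nat.cast_sub (card_le_card hsub)]
    ring
  have hp1 : pr A1 = pr Ys := by
    rw [hA1, pr_piFinset]
    have : ∀ v, pr (if v = u then Ys else (univ : Finset Y)) = if v = u then pr Ys else 1 := by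
      intro v; by_cases hv : v = u
      · simp [hv]
      · simp [hv, pr_univ]
    rw [Finset.prod_congr rfl fun v _ => this v, Finset.prod_ite_eq' univ u]
    simp
  have hp2 : pr A2 = pr Ys * ∏ v ∈ Sc, (1 - pr (H v)) := by
    rw [hA2, pr_piFinset]
    have : ∀ v, pr (if v = u then Ys else if v ∈ Sc then (H v)ᶜ else (univ : Finset Y))
        = (if v = u then pr Ys else 1) * (if v ∈ Sc then (1 - pr (H v)) else 1) := by
      intro v
      by_cases hv : v = u
      · subst hv; simp [hu]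
      · by_cases hv' : v ∈ Sc
        · simp [hv, hv', pr_compl]
        · simp [hv, hv', pr_univ]
    rw [Finset.prod_congr rfl fun v _ => this v, prod_mul_distrib, Finset.prod_ite_eq' univ u,
      Finset.prod_ite_mem]
    simp
  have hprod : ∏ v ∈ Sc, (1 - pr (H v)) ≤ (1 - q) ^ #Sc := by
    rw [← prod_const]
    apply Finset.prod_le_prod
    · intro v hv
      have := pr_le_one (H v)
      linarith
    · intro v hv
      have := hq v hv
      linarith
  rw [hsum, hprA, hp1, hp2]
  apply mul_le_mul_of_nonneg_left _ (by positivity)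
  have h1 : y * (1 - (1 - q) ^ #Sc) ≤ pr Ys - pr Ys * ∏ v ∈ Sc, (1 - pr (H v)) := by
    have e1 : pr Ys - pr Ys * ∏ v ∈ Sc, (1 - pr (H v))
        = pr Ys * (1 - ∏ v ∈ Sc, (1 - pr (H v))) := by ring
    rw [e1]
    have e2 : (1 - q) ^ #Sc ≤ 1 := pow_le_one₀ (by linarith) (by linarith)
    apply mul_le_mul hy _ _ (pr_nonneg _)
    · linarith
    · linarith
  have h2 := mul_le_mul_of_nonneg_left h1 (show 0 ≤ 1 - lam by linarith)
  nlinarith [h2]

/-- all colours: factorisation -/
theorem all_colours {C : Type*} [Fintype C] [DecidableEq C] (G : C → (V → Y) → ℝ) :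
    ∑ ω : V → C → Y, ∏ c, G c (fun v => ω v c) = ∏ c, ∑ x : V → Y, G c x := by
  classical
  rw [Finset.prod_univ_sum]
  rw [Fintype.piFinset_univ]
  exact Equiv.sum_comp (Equiv.piComm fun (_ : V) (_ : C) => Y) (fun ω' => ∏ c, G c (ω' c))

theorem card_all {C : Type*} [Fintype C] [DecidableEq C] :
    (Fintype.card (V → C → Y) : ℝ) = ∏ _c : C, (Fintype.card (V → Y) : ℝ) := by
  rw [prod_const, card_univ]
  simp only [Fintype.card_fun]
  push_cast
  rw [← pow_mul, ← pow_mul, mul_comm]

end general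

/-- the convexity inequality -/
theorem conv_ineq (a r : ℝ) (ha0 : 0 ≤ a) (ha1 : a ≤ 1) (hr0 : 0 ≤ r) (hr1 : r ≤ 1)
    (x s : ℕ) (hs : 0 < s) (hx : x ≤ s) :
    1 - a * (1 - r ^ x) ≤ (1 - a * (1 - r ^ s)) ^ ((x : ℝ) / s) := by
  have hsr : (0 : ℝ) < s := by exact_mod_cast hs
  have h0 : (0 : ℝ) ≤ (x : ℝ) / s := by positivity
  have h1 : (x : ℝ) / s ≤ 1 := by
    rw [div_le_one hsr]; exact_mod_cast hx
  have hconc := (Real.concaveOn_rpow h0 h1).2 (show (1 : ℝ) ∈ Set.Ici (0 : ℝ) by simp)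
    (show r ^ s ∈ Set.Ici (0 : ℝ) from pow_nonneg hr0 s) (show 0 ≤ 1 - a by linarith) ha0
    (by ring)
  simp only [smul_eq_mul, Real.one_rpow, mul_one] at hconc
  have e1 : (r ^ s) ^ ((x : ℝ) / s) = r ^ x := by
    rw [← Real.rpow_natCast r s, ← Real.rpow_mul hr0, mul_div_cancel₀ _ (ne_of_gt hsr),
      Real.rpow_natCast]
  rw [e1] at hconc
  calc 1 - a * (1 - r ^ x) = 1 - a + a * r ^ x := by ring
    _ ≤ (1 - a + a * r ^ s) ^ ((x : ℝ) / s) := hconc
    _ = _ := by congr 1; ring

theorem conv_prod {C : Type*} [Fintype C] (a r : ℝ) (ha0 : 0 ≤ a) (ha1 : a ≤ 1) (hr0 : 0 ≤ r)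
    (hr1 : r ≤ 1) (m : C → ℕ) (s N : ℕ) (hs : 0 < s) (hm : ∀ c, m c ≤ s)
    (hsum : ∑ c, m c = s * N) :
    ∏ c, (1 - a * (1 - r ^ m c)) ≤ (1 - a * (1 - r ^ s)) ^ N := by
  have hbase : 0 ≤ 1 - a * (1 - r ^ s) := by
    have : 0 ≤ r ^ s := pow_nonneg hr0 s
    nlinarith
  have hnn : ∀ c, 0 ≤ 1 - a * (1 - r ^ m c) := by
    intro c
    have : 0 ≤ r ^ m c := pow_nonneg hr0 _
    nlinarith
  calc ∏ c, (1 - a * (1 - r ^ m c))
      ≤ ∏ c, (1 - a * (1 - r ^ s)) ^ ((m c : ℝ) / s) :=
        Finset.prod_le_prod (fun c _ => hnn c)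
          fun c _ => conv_ineq a r ha0 ha1 hr0 hr1 (m c) s hs (hm c)
    _ = (1 - a * (1 - r ^ s)) ^ (∑ c, (m c : ℝ) / s) := by
        rw [Real.rpow_sum_of_nonneg hbase]
        intro c _; positivity
    _ = _ := by
        rw [← Finset.sum_div, ← Nat.cast_sum, hsum]
        have : ((s * N : ℕ) : ℝ) / s = N := by
          have : (s : ℝ) ≠ 0 := by positivity
          push_cast; field_simp
        rw [this, Real.rpow_natCast]

end Pool.Agent.Helper21.LEC
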