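import Mathlib
import Pool.Agent.Helper21.LEC.Prob

/-!
Exponential moments for the star at `u`.
-/

set_option autoImplicit false
set_option linter.unusedSectionVars false
set_option linter.unusedVariables false

namespace Pool.Agent.Helper21.LEC

open Finset

variable {V : Type*} [Fintype V] [DecidableEq V] {C : Type*} [Fintype C] [DecidableEq C]

theorem pr_singleton {M : ℕ} [NeZero M] : pr ({0} : Finset (Fin M)) = 1 / (M : ℝ) := by
  unfold pr; simp

theorem pr_erase {M : ℕ} [NeZero M] : pr ((univ : Finset (Fin M)).erase 0) = 1 - 1 / (M : ℝ) := by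
  have : (univ : Finset (Fin M)).erase 0 = ({0} : Finset (Fin M))ᶜ := by
    ext x; simp
  rw [this, pr_compl, pr_singleton]

theorem bern {M j k : ℕ} [NeZero M] (hM : M = 4 * k) (hj : j ≤ k) :
    (3 / 4 : ℝ) ≤ (1 - 1 / (M : ℝ)) ^ j := by
  have hM0 : 0 < M := Nat.pos_of_ne_zero (NeZero.ne M)
  have hMr : (0 : ℝ) < M := by exact_mod_cast hM0
  have hk : (0 : ℝ) < k := by
    have : 0 < k := by omega
    exact_mod_cast this
  have hMk : (M : ℝ) = 4 * k := by rw [hM]; push_cast; ring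
  have h1 : (1 : ℝ) / M ≤ 1 := by
    rw [div_le_one hMr]; exact_mod_cast hM0
  have h2 := one_add_mul_le_pow (a := -(1 / (M : ℝ))) (by linarith) j
  have h3 : (j : ℝ) * (1 / M) ≤ 1 / 4 := by
    rw [hMk, mul_one_div, div_le_div_iff₀ (by positivity) (by norm_num)]
    have : (j : ℝ) ≤ k := by exact_mod_cast hj
    linarith
  calc (3 / 4 : ℝ) ≤ 1 + j * (-(1 / (M : ℝ))) := by linarith
    _ ≤ (1 + -(1 / (M : ℝ))) ^ j := h2
    _ = _ := by ring

theorem pr_hit {B : V → Finset V} {u v : V} {k M : ℕ} [NeZero M] (hM : M = 4 * k)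
    (huv : u ∈ B v) (hB : #(B v) ≤ k) :
    3 / (16 * (k : ℝ)) ≤ pr (univ.filter fun y : V → Fin M => hitY B u v y) := by
  have hM0 : 0 < M := Nat.pos_of_ne_zero (NeZero.ne M)
  have hk0 : 0 < k := by omega
  have hk : (0 : ℝ) < k := by exact_mod_cast hk0
  have hMk : (M : ℝ) = 4 * k := by rw [hM]; push_cast; ring
  have heq : (univ.filter fun y : V → Fin M => hitY B u v y) = Fintype.piFinset fun w =>
      if w = u then ({0} : Finset (Fin M)) else if w ∈ B v then univ.erase 0 else univ := by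
    ext y
    rw [mem_filter, Fintype.mem_piFinset]
    constructor
    · rintro ⟨-, h1, h2⟩ w
      by_cases hw : w = u
      · subst hw; simp [h1]
      · by_cases hw' : w ∈ B v
        · simp [hw, hw', h2 w hw' hw]
        · simp [hw, hw']
    · intro h
      refine ⟨mem_univ _, by simpa using h u, fun w hw hwu => ?_⟩
      simpa [hw, hwu] using h w
  rw [heq, pr_piFinset]
  have hterm : ∀ w, pr (if w = u then ({0} : Finset (Fin M)) else if w ∈ B v then univ.erase 0
      else univ) = (if w = u then 1 / (M : ℝ) else 1) *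
        (if w ∈ (B v).erase u then (1 - 1 / (M : ℝ)) else 1) := by
    intro w
    by_cases hw : w = u
    · subst hw; simp [pr_singleton]
    · by_cases hw' : w ∈ B v
      · simp [hw, hw', pr_erase]
      · simp [hw, hw', pr_univ]
  rw [Finset.prod_congr rfl fun w _ => hterm w, prod_mul_distrib, Finset.prod_ite_eq' univ u,
    Finset.prod_ite_mem]
  simp only [mem_univ, if_true, univ_inter, prod_const]
  have h1 := bern (M := M) (j := #((B v).erase u)) hM ((card_le_card (erase_subset _ _)).trans hB)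
  calc 3 / (16 * (k : ℝ)) = 1 / (M : ℝ) * (3 / 4) := by rw [hMk]; field_simp; norm_num
    _ ≤ _ := mul_le_mul_of_nonneg_left h1 (by positivity)

theorem pr_avoid {B : V → Finset V} {u : V} {k M : ℕ} [NeZero M] (hM : M = 4 * k)
    (hB : #(B u) ≤ k) :
    (3 / 4 : ℝ) ≤ pr (univ.filter fun y : V → Fin M => ∀ w ∈ B u, y w ≠ 0) := by
  have heq : (univ.filter fun y : V → Fin M => ∀ w ∈ B u, y w ≠ 0) = Fintype.piFinset fun w =>
      if w ∈ B u then (univ.erase 0 : Finset (Fin M)) else univ := by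
    ext y
    rw [mem_filter, Fintype.mem_piFinset]
    constructor
    · rintro ⟨-, h1⟩ w
      by_cases hw : w ∈ B u
      · simp [hw, h1 w hw]
      · simp [hw]
    · intro h
      exact ⟨mem_univ _, fun w hw => by simpa [hw] using h w⟩
  rw [heq, pr_piFinset]
  have hterm : ∀ w, pr (if w ∈ B u then (univ.erase 0 : Finset (Fin M)) else univ)
      = (if w ∈ B u then (1 - 1 / (M : ℝ)) else 1) := by
    intro w
    by_cases hw : w ∈ B u
    · simp [hw, pr_erase]
    · simp [hw, pr_univ]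
  rw [Finset.prod_congr rfl fun w _ => hterm w, Finset.prod_ite_mem]
  simp only [univ_inter, prod_const]
  exact bern hM hB

/-- exponential moment, general form -/
theorem exp_moment [Nonempty V] {B : V → Finset V} {L : V → V → Finset C} {u : V} {k M N : ℕ} [NeZero M]
    (hM : M = 4 * k) (hB : ∀ v, #(B v) ≤ k) (huu : u ∉ B u) (S : Finset V) (hS : S ⊆ fw B u)
    (hS0 : 0 < #S) (hL : ∀ v ∈ fw B u, #(L u v) = N) (Ys : Finset (V → Fin M)) (y : ℝ)
    (hy : y ≤ pr Ys) (hy0 : 0 ≤ y) (hy1 : y ≤ 1) (lam : ℝ) (hl0 : 0 ≤ lam) (hl1 : lam ≤ 1) :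
    ∑ ω : V → C → V → Fin M,
      lam ^ #(univ.filter fun c => ω u c ∈ Ys ∧ ∃ v ∈ S, c ∈ L u v ∧ hitY B u v (ω v c))
      ≤ Fintype.card (V → C → V → Fin M) *
        (1 - (1 - lam) * y * (1 - (1 - 3 / (16 * (k : ℝ))) ^ #S)) ^ N := by
  classical
  have hM0 : 0 < M := Nat.pos_of_ne_zero (NeZero.ne M)
  have hk0 : 0 < k := by omega
  have hk : (1 : ℝ) ≤ k := by exact_mod_cast hk0
  set q : ℝ := 3 / (16 * (k : ℝ)) with hq
  have hq0 : 0 ≤ q := by positivity
  have hq1 : q ≤ 1 := by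
    rw [hq, div_le_one (by positivity)]; linarith
  set Sc : C → Finset V := fun c => S.filter fun v => c ∈ L u v with hSc
  set H : V → Finset (V → Fin M) := fun v => univ.filter fun z => hitY B u v z with hH
  have huS : u ∉ S := fun h => huu (mem_fw.1 (hS h))
  have e1 : ∀ ω : V → C → V → Fin M,
      lam ^ #(univ.filter fun c => ω u c ∈ Ys ∧ ∃ v ∈ S, c ∈ L u v ∧ hitY B u v (ω v c))
      = ∏ c, (fun (c : C) (x : V → V → Fin M) =>
        if x u ∈ Ys ∧ ∃ v ∈ Sc c, x v ∈ H v then lam else 1) c (fun v => ω v c) := by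
    intro ω
    simp only
    rw [Finset.prod_ite, prod_const, prod_const_one, mul_one]
    congr 2
    ext c
    simp only [mem_filter, mem_univ, true_and, hSc, hH]
    constructor
    · rintro ⟨h1, v, hv, hc, h2⟩; exact ⟨h1, v, ⟨hv, hc⟩, h2⟩
    · rintro ⟨h1, v, ⟨hv, hc⟩, h2⟩; exact ⟨h1, v, hv, hc, h2⟩
  rw [Finset.sum_congr rfl fun ω _ => e1 ω, all_colours (V := V) (Y := V → Fin M) (C := C)
    (fun (c : C) (x : V → V → Fin M) => if x u ∈ Ys ∧ ∃ v ∈ Sc c, x v ∈ H v then lam else 1)]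
  have e2 : ∀ c : C, ∑ x : V → V → Fin M, (if x u ∈ Ys ∧ ∃ v ∈ Sc c, x v ∈ H v then lam else 1)
      ≤ Fintype.card (V → V → Fin M) * (1 - (1 - lam) * y * (1 - (1 - q) ^ #(Sc c))) := by
    intro c
    apply one_colour u (Sc c) (fun h => huS (mem_filter.1 h).1) Ys H q y _ hq1 hy hy0 hq0 lam hl1
    intro v hv
    exact pr_hit hM (mem_fw.1 (hS (mem_filter.1 hv).1)) (hB v)
  have e3 : ∏ c : C, ∑ x : V → V → Fin M,
      (if x u ∈ Ys ∧ ∃ v ∈ Sc c, x v ∈ H v then lam else 1)
      ≤ ∏ c : C, ((Fintype.card (V → V → Fin M) : ℝ) *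
        (1 - (1 - lam) * y * (1 - (1 - q) ^ #(Sc c)))) := by
    apply Finset.prod_le_prod
    · intro c _
      apply Finset.sum_nonneg
      intro x _
      split_ifs <;> linarith
    · intro c _; exact e2 c
  refine e3.trans ?_
  rw [prod_mul_distrib, ← card_all (V := V) (Y := V → Fin M) (C := C)]
  apply mul_le_mul_of_nonneg_left _ (by positivity)
  apply conv_prod ((1 - lam) * y) (1 - q) (mul_nonneg (by linarith) hy0) _ (by linarith)
    (by linarith) (fun c => #(Sc c)) #S N hS0 (fun c => card_le_card (filter_subset _ _))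
  · have : ∑ c, #(Sc c) = ∑ v ∈ S, #(L u v) := by
      simp only [hSc, card_filter]
      rw [sum_comm]
      apply sum_congr rfl
      intro v _
      rw [← card_filter]
      simp
    rw [this, Finset.sum_congr rfl fun v hv => hL v (hS hv)]
    simp
  · nlinarith

theorem moment_b [Nonempty V] {B : V → Finset V} {L : V → V → Finset C} {u : V} {k M N : ℕ} [NeZero M]
    (hM : M = 4 * k) (hB : ∀ v, #(B v) ≤ k) (huu : u ∉ B u) (S : Finset V) (hS : S ⊆ fw B u)
    (hS0 : 0 < #S) (hL : ∀ v ∈ fw B u, #(L u v) = N)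
    (lam : ℝ) (hl0 : 0 ≤ lam) (hl1 : lam ≤ 1) :
    ∑ ω : V → C → V → Fin M, lam ^ #(S.biUnion fun v => Al B L ω u v)
      ≤ Fintype.card (V → C → V → Fin M) *
        (1 - (1 - lam) * (1 - (1 - 3 / (16 * (k : ℝ))) ^ #S)) ^ N := by
  classical
  have h := exp_moment hM hB huu S hS hS0 hL (univ : Finset (V → Fin M)) 1 (by rw [pr_univ])
    (by norm_num) le_rfl lam hl0 hl1
  rw [mul_one] at h
  refine le_trans (le_of_eq ?_) h
  apply Finset.sum_congr rfl
  intro ω _
  congr 2
  ext c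
  simp only [mem_biUnion, Al, mem_filter, mem_univ, true_and]

theorem moment_a [Nonempty V] {B : V → Finset V} {L : V → V → Finset C} {u : V} {k M N : ℕ} [NeZero M]
    (hM : M = 4 * k) (hB : ∀ v, #(B v) ≤ k) (huu : u ∉ B u) (S : Finset V) (hS : S ⊆ fw B u)
    (hS0 : 0 < #S) (hL : ∀ v ∈ fw B u, #(L u v) = N)
    (lam : ℝ) (hl0 : 0 ≤ lam) (hl1 : lam ≤ 1) :
    ∑ ω : V → C → V → Fin M, lam ^ #(S.biUnion fun v => Al B L ω u v \ Qu B ω u)
      ≤ Fintype.card (V → C → V → Fin M) *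
        (1 - (1 - lam) * (3 / 4) * (1 - (1 - 3 / (16 * (k : ℝ))) ^ #S)) ^ N := by
  classical
  have h := exp_moment hM hB huu S hS hS0 hL (univ.filter fun y : V → Fin M => ∀ w ∈ B u, y w ≠ 0)
    (3 / 4) (pr_avoid hM (hB u)) (by norm_num) (by norm_num) lam hl0 hl1
  refine le_trans (le_of_eq ?_) h
  apply Finset.sum_congr rfl
  intro ω _
  congr 2
  ext c
  simp only [mem_biUnion, mem_sdiff, Al, Qu, mem_filter, mem_univ, true_and, not_exists, not_and]
  constructor
  · rintro ⟨v, hv, ⟨h1, h2⟩, h3⟩; exact ⟨h3, v, hv, h1, h2⟩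
  · rintro ⟨h3, v, hv, h1, h2⟩; exact ⟨v, hv, ⟨h1, h2⟩, h3⟩

end Pool.Agent.Helper21.LEC
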