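import Mathlib
import Pool.Agent.Helper21.LEC.Star

/-!
Probability of the bad event at `u`.
-/

set_option autoImplicit false
set_option linter.unusedSectionVars false
set_option linter.unusedVariables false

namespace Pool.Agent.Helper21.LEC

open Finset

theorem markov {Ω : Type*} [Fintype Ω] (X : Ω → ℕ) (j : ℕ) (lam : ℝ) (hl0 : 0 < lam)
    (hl1 : lam ≤ 1) :
    (#(univ.filter fun ω => X ω ≤ j) : ℝ) * lam ^ j ≤ ∑ ω, lam ^ X ω := by
  calc (#(univ.filter fun ω => X ω ≤ j) : ℝ) * lam ^ j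
      = ∑ ω ∈ univ.filter (fun ω => X ω ≤ j), lam ^ j := by rw [sum_const, nsmul_eq_mul]
    _ ≤ ∑ ω ∈ univ.filter (fun ω => X ω ≤ j), lam ^ X ω := by
        apply sum_le_sum
        intro ω hω
        exact pow_le_pow_of_le_one hl0.le hl1 (mem_filter.1 hω).2
    _ ≤ ∑ ω, lam ^ X ω :=
        sum_le_sum_of_subset_of_nonneg (filter_subset _ _) fun _ _ _ => by positivity

theorem pow_le_inv (q : ℝ) (hq0 : 0 ≤ q) (hq1 : q ≤ 1) (s : ℕ) :
    (1 - q) ^ s ≤ 1 / (1 + q * s) := by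
  have h1 : 0 ≤ (1 - q) ^ s := pow_nonneg (by linarith) s
  have h2 : 1 + q * s ≤ (1 + q) ^ s := by
    have := one_add_mul_le_pow (a := q) (by linarith) s
    linarith
  rw [le_div_iff₀ (by positivity)]
  calc (1 - q) ^ s * (1 + q * s) ≤ (1 - q) ^ s * (1 + q) ^ s := mul_le_mul_of_nonneg_left h2 h1
    _ = (1 - q ^ 2) ^ s := by rw [← mul_pow]; congr 1; ring
    _ ≤ 1 := pow_le_one₀ (by nlinarith) (by nlinarith [sq_nonneg q])

theorem one_sub_pow_le_exp (t : ℝ) (ht : t ≤ 1) (N : ℕ) :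
    (1 - t) ^ N ≤ Real.exp (-(t * N)) := by
  have h := Real.one_sub_le_exp_neg t
  calc (1 - t) ^ N ≤ (Real.exp (-t)) ^ N := pow_le_pow_left₀ (by linarith) h N
    _ = _ := by rw [← Real.exp_nat_mul]; congr 1; ring

/-- first range of sizes -/
theorem num_a1 (q : ℝ) (hq0 : 0 ≤ q) (hq1 : q ≤ 1) (N s : ℕ) (hN : 3 ≤ N) (hs : 1 ≤ s)
    (hqs : q * s ≤ 1) :
    (N : ℝ) ^ s * (1 - (1 - 1 / (N : ℝ)) * (3 / 4) * (1 - (1 - q) ^ s)) ^ N
      ≤ (N * Real.exp (-(q * N / 4))) ^ s := by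
  have hNr : (3 : ℝ) ≤ N := by exact_mod_cast hN
  have h1 : (1 - q) ^ s ≤ 1 - q * s / 2 := by
    refine (pow_le_inv q hq0 hq1 s).trans ?_
    have hx : 0 ≤ q * s := by positivity
    rw [div_le_iff₀ (by linarith)]
    nlinarith
  have h2 : 1 / (N : ℝ) ≤ 1 / 3 := one_div_le_one_div_of_le (by norm_num) hNr
  have h3 : (1 / 2 : ℝ) ≤ (1 - 1 / (N : ℝ)) * (3 / 4) := by linarith
  have hr0 : 0 ≤ (1 - q) ^ s := pow_nonneg (by linarith) s
  have h4 : q * s / 4 ≤ (1 - 1 / (N : ℝ)) * (3 / 4) * (1 - (1 - q) ^ s) := by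
    have : q * s / 2 ≤ 1 - (1 - q) ^ s := by linarith
    have h0 : 0 ≤ q * s / 2 := by positivity
    calc q * s / 4 = 1 / 2 * (q * s / 2) := by ring
      _ ≤ _ := mul_le_mul h3 this h0 (by linarith)
  have h5 : (1 - 1 / (N : ℝ)) * (3 / 4) * (1 - (1 - q) ^ s) ≤ 1 := by
    have e1 : (1 - 1 / (N : ℝ)) * (3 / 4) ≤ 1 := by
      have : 0 ≤ 1 / (N : ℝ) := by positivity
      linarith
    have e2 : 0 ≤ (1 - 1 / (N : ℝ)) * (3 / 4) := by linarith
    nlinarith
  have h6 := one_sub_pow_le_exp _ h5 N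
  have h7 : Real.exp (-((1 - 1 / (N : ℝ)) * (3 / 4) * (1 - (1 - q) ^ s) * N))
      ≤ Real.exp (-(q * s / 4 * N)) := by
    apply Real.exp_le_exp.2
    have := mul_le_mul_of_nonneg_right h4 (show (0 : ℝ) ≤ N by positivity)
    linarith
  rw [mul_pow]
  apply mul_le_mul_of_nonneg_left _ (by positivity)
  refine (h6.trans h7).trans (le_of_eq ?_)
  rw [← Real.exp_nat_mul]
  congr 1; ring

/-- second range -/
theorem num_a2 (q : ℝ) (hq0 : 0 ≤ q) (hq1 : q ≤ 1) (N s : ℕ) (hqs : 1 < q * s) :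
    (1 - (1 - 1 / 4) * (3 / 4) * (1 - (1 - q) ^ s)) ^ N ≤ Real.exp (-(9 / 32 * N)) := by
  have h1 : (1 - q) ^ s ≤ 1 / 2 := by
    refine (pow_le_inv q hq0 hq1 s).trans ?_
    apply one_div_le_one_div_of_le <;> linarith
  have hr0 : 0 ≤ (1 - q) ^ s := pow_nonneg (by linarith) s
  have h5 : (1 - 1 / 4 : ℝ) * (3 / 4) * (1 - (1 - q) ^ s) ≤ 1 := by linarith
  refine (one_sub_pow_le_exp _ h5 N).trans ?_
  apply Real.exp_le_exp.2
  have h4 : (9 / 32 : ℝ) ≤ (1 - 1 / 4 : ℝ) * (3 / 4) * (1 - (1 - q) ^ s) := by linarith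
  have := mul_le_mul_of_nonneg_right h4 (show (0 : ℝ) ≤ N by positivity)
  linarith

/-- large sets -/
theorem num_b (q : ℝ) (hq0 : 0 ≤ q) (hq1 : q ≤ 1) (N s : ℕ) (hN : 1 ≤ N) (hs : N < 32 * s)
    (lam : ℝ) (hlam : lam = N * Real.exp (-(q * N / 32))) (hl1 : lam ≤ 1) :
    (1 - (1 - lam) * (1 - (1 - q) ^ s)) ^ N ≤ lam ^ N * Real.exp 1 := by
  have hNr : (1 : ℝ) ≤ N := by exact_mod_cast hN
  have hlam0 : 0 < lam := by rw [hlam]; positivity
  have h1 : (1 - q) ^ s ≤ Real.exp (-(q * N / 32)) := by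
    refine (one_sub_pow_le_exp q hq1 s).trans ?_
    apply Real.exp_le_exp.2
    have : (N : ℝ) ≤ 32 * s := by exact_mod_cast hs.le
    have := mul_le_mul_of_nonneg_left this hq0
    linarith
  have hr0 : 0 ≤ (1 - q) ^ s := pow_nonneg (by linarith) s
  have h2 : 1 - (1 - lam) * (1 - (1 - q) ^ s) ≤ lam * (1 + 1 / N) := by
    have e1 : lam * (1 + 1 / N) = lam + Real.exp (-(q * N / 32)) := by
      rw [mul_add, mul_one, hlam]; field_simp
    rw [e1]
    nlinarith
  have h3 : 0 ≤ 1 - (1 - lam) * (1 - (1 - q) ^ s) := by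
    have hr1 : (1 - q) ^ s ≤ 1 := pow_le_one₀ (by linarith) (by linarith)
    nlinarith
  refine (pow_le_pow_left₀ h3 h2 N).trans ?_
  rw [mul_pow]
  apply mul_le_mul_of_nonneg_left _ (by positivity)
  have h4 := Real.add_one_le_exp (1 / (N : ℝ))
  calc (1 + 1 / (N : ℝ)) ^ N ≤ (Real.exp (1 / (N : ℝ))) ^ N :=
        pow_le_pow_left₀ (by positivity) (by linarith) N
    _ = Real.exp 1 := by
        rw [← Real.exp_nat_mul]; congr 1; field_simp

variable {V : Type*} [Fintype V] [DecidableEq V] {C : Type*} [Fintype C] [DecidableEq C]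

theorem sum_pow_card (F : Finset V) (x : ℝ) : ∑ S ∈ F.powerset, x ^ #S = (x + 1) ^ #F := by
  have := Finset.sum_pow_mul_eq_add_pow x 1 F
  simpa using this

theorem sum_pow_card' (F : Finset V) (x : ℝ) :
    ∑ S ∈ F.powerset, x ^ (#F - #S) = (1 + x) ^ #F := by
  have := Finset.sum_pow_mul_eq_add_pow 1 x F
  simpa using this

open Classical in
/-- probability of the bad event -/
theorem bad_bound [Nonempty V] {B : V → Finset V} {L : V → V → Finset C} {Nf : V → ℕ} {u : V}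
    {k M : ℕ} [NeZero M] (hM : M = 4 * k) (hB : ∀ v, #(B v) ≤ k) (huu : u ∉ B u)
    (hL : ∀ v ∈ fw B u, #(L u v) = Nf u) (hdeg : #(fw B u) + #(B u) ≤ Nf u)
    (hN3 : 3 ≤ Nf u)
    (hsmall : (Nf u : ℝ) ^ 2 * Real.exp (-(3 / (16 * (k : ℝ)) * Nf u / 32)) ≤ 1) :
    (#(univ.filter fun ω : V → C → V → Fin M => ¬ Good B L Nf u ω) : ℝ)
      ≤ Fintype.card (V → C → V → Fin M) *
        (12 * (Nf u : ℝ) ^ 2 * Real.exp (-(3 / (16 * (k : ℝ)) * Nf u / 32))) := by
  set N := Nf u with hNdef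
  have hM0 : 0 < M := Nat.pos_of_ne_zero (NeZero.ne M)
  have hk0 : 0 < k := by omega
  have hk : (1 : ℝ) ≤ k := by exact_mod_cast hk0
  set q : ℝ := 3 / (16 * (k : ℝ)) with hq
  have hq0 : 0 ≤ q := by positivity
  have hq316 : q ≤ 3 / 16 := by
    rw [hq, div_le_div_iff₀ (by positivity) (by norm_num)]; linarith
  have hq1 : q ≤ 1 := by linarith
  have hNr : (3 : ℝ) ≤ N := by exact_mod_cast hN3
  set Ω := V → C → V → Fin M with hΩ
  set cΩ : ℝ := ((Fintype.card Ω : ℕ) : ℝ) with hcΩ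
  have hcΩ0 : 0 ≤ cΩ := by positivity
  set F := fw B u with hF
  set E : ℝ := Real.exp (-(q * N / 32)) with hE
  have hE0 : 0 < E := Real.exp_pos _
  -- events
  set fa : Finset V → Finset Ω := fun S => univ.filter fun ω =>
    #(S.biUnion fun v => Al B L ω u v \ Qu B ω u) ≤ #S - 1 with hfa
  set fb : Finset V → Finset Ω := fun S => univ.filter fun ω =>
    #(S.biUnion fun v => Al B L ω u v) ≤ N - (#F - #S) - 1 with hfb
  set PA1 := F.powerset.filter fun S => 1 ≤ #S ∧ q * #S ≤ 1 with hPA1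
  set PA2 := F.powerset.filter fun S => 1 < q * #S ∧ 32 * #S ≤ N with hPA2
  set PB := F.powerset.filter fun S => N < 32 * #S with hPB
  have hcover : (univ.filter fun ω : Ω => ¬ Good B L Nf u ω) ⊆
      (PA1.biUnion fa ∪ PA2.biUnion fa) ∪ PB.biUnion fb := by
    intro ω hω
    rw [mem_filter] at hω
    have hω := hω.2
    unfold Good at hω
    push Not at hω
    obtain ⟨S, hS, h⟩ := hω
    by_cases hc : 32 * #S ≤ N → #S ≤ #(S.biUnion fun v => Al B L ω u v \ Qu B ω u)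
    · obtain ⟨h1, h2⟩ := h hc
      apply mem_union_right
      rw [mem_biUnion]
      refine ⟨S, mem_filter.2 ⟨mem_powerset.2 hS, h1⟩, mem_filter.2 ⟨mem_univ _, ?_⟩⟩
      have : #S ≤ #F := card_le_card hS
      omega
    · push Not at hc
      obtain ⟨h1, h2⟩ := hc
      apply mem_union_left
      have hS1 : 1 ≤ #S := by omega
      have hmem : ω ∈ fa S := mem_filter.2 ⟨mem_univ _, by omega⟩
      by_cases hqs : q * #S ≤ 1
      · apply mem_union_left
        rw [mem_biUnion]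
        exact ⟨S, mem_filter.2 ⟨mem_powerset.2 hS, hS1, hqs⟩, hmem⟩
      · apply mem_union_right
        rw [mem_biUnion]
        exact ⟨S, mem_filter.2 ⟨mem_powerset.2 hS, not_le.1 hqs, h1⟩, hmem⟩
  have hcard : (#(univ.filter fun ω : Ω => ¬ Good B L Nf u ω) : ℝ)
      ≤ ∑ S ∈ PA1, (#(fa S) : ℝ) + ∑ S ∈ PA2, (#(fa S) : ℝ) + ∑ S ∈ PB, (#(fb S) : ℝ) := by
    have h1 := card_le_card hcover
    have h2 := card_union_le (PA1.biUnion fa ∪ PA2.biUnion fa) (PB.biUnion fb)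
    have h3 := card_union_le (PA1.biUnion fa) (PA2.biUnion fa)
    have h4 : #(PA1.biUnion fa) ≤ ∑ S ∈ PA1, #(fa S) := card_biUnion_le
    have h5 : #(PA2.biUnion fa) ≤ ∑ S ∈ PA2, #(fa S) := card_biUnion_le
    have h6 : #(PB.biUnion fb) ≤ ∑ S ∈ PB, #(fb S) := card_biUnion_le
    have h7 : #(univ.filter fun ω : Ω => ¬ Good B L Nf u ω)
        ≤ ∑ S ∈ PA1, #(fa S) + ∑ S ∈ PA2, #(fa S) + ∑ S ∈ PB, #(fb S) := by omega
    exact_mod_cast h7
  -- moments
  have hFN : (#F : ℝ) ≤ N := by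
    have : #F ≤ N := by omega
    exact_mod_cast this
  have hA1 : ∀ S ∈ PA1, (#(fa S) : ℝ) ≤ cΩ * (N * Real.exp (-(q * N / 4))) ^ #S := by
    intro S hS
    obtain ⟨hS, hS1, hqs⟩ := mem_filter.1 hS
    rw [mem_powerset] at hS
    have hl0 : (0 : ℝ) < 1 / N := by positivity
    have hl1 : (1 : ℝ) / N ≤ 1 := by rw [div_le_one (by positivity)]; linarith
    have hm := moment_a (M := M) hM hB huu S hS hS1 hL (1 / N) hl0.le hl1
    have hmk := markov (fun ω : Ω => #(S.biUnion fun v => Al B L ω u v \ Qu B ω u)) (#S - 1)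
      (1 / N) hl0 hl1
    have h1 : (#(fa S) : ℝ) * (1 / N) ^ (#S - 1) ≤ cΩ *
        (1 - (1 - 1 / N) * (3 / 4) * (1 - (1 - q) ^ #S)) ^ N := hmk.trans hm
    have h2 : (#(fa S) : ℝ) * (1 / N) ^ #S ≤ cΩ *
        (1 - (1 - 1 / N) * (3 / 4) * (1 - (1 - q) ^ #S)) ^ N := by
      refine le_trans ?_ h1
      apply mul_le_mul_of_nonneg_left _ (by positivity)
      exact pow_le_pow_of_le_one hl0.le hl1 (Nat.sub_le _ _)
    have h3 : (#(fa S) : ℝ) ≤ cΩ * ((N : ℝ) ^ #S *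
        (1 - (1 - 1 / N) * (3 / 4) * (1 - (1 - q) ^ #S)) ^ N) := by
      have h4 := mul_le_mul_of_nonneg_right h2 (show (0 : ℝ) ≤ (N : ℝ) ^ #S by positivity)
      have h5 : (1 / (N : ℝ)) ^ #S * (N : ℝ) ^ #S = 1 := by
        rw [← mul_pow]
        have : (1 / (N : ℝ)) * N = 1 := by field_simp
        rw [this, one_pow]
      calc (#(fa S) : ℝ) = #(fa S) * ((1 / (N : ℝ)) ^ #S * (N : ℝ) ^ #S) := by rw [h5, mul_one]
        _ = #(fa S) * (1 / (N : ℝ)) ^ #S * (N : ℝ) ^ #S := by ring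
        _ ≤ _ := h4
        _ = _ := by ring
    exact h3.trans (mul_le_mul_of_nonneg_left (num_a1 q hq0 hq1 N #S hN3 hS1 hqs) hcΩ0)
  have hA2 : ∀ S ∈ PA2, (#(fa S) : ℝ) ≤ cΩ *
      (Real.exp (-(4 / 32 * N)) * (1 / 32) ^ #S) := by
    intro S hS
    obtain ⟨hS, hqs, hS32⟩ := mem_filter.1 hS
    rw [mem_powerset] at hS
    have hS1 : 0 < #S := by
      rcases Nat.eq_zero_or_pos #S with h | h
      · rw [h] at hqs; norm_num at hqs
      · exact h
    have hm := moment_a (M := M) hM hB huu S hS hS1 hL (1 / 4) (by norm_num) (by norm_num)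
    have hmk := markov (fun ω : Ω => #(S.biUnion fun v => Al B L ω u v \ Qu B ω u)) (#S - 1)
      (1 / 4) (by norm_num) (by norm_num)
    have h1 := hmk.trans hm
    have h2 : (#(fa S) : ℝ) * (1 / 4) ^ #S ≤ cΩ * Real.exp (-(9 / 32 * N)) := by
      refine le_trans ?_ (h1.trans (mul_le_mul_of_nonneg_left (num_a2 q hq0 hq1 N #S hqs) hcΩ0))
      apply mul_le_mul_of_nonneg_left _ (by positivity)
      exact pow_le_pow_of_le_one (by norm_num) (by norm_num) (Nat.sub_le _ _)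
    have h5 : (128 : ℝ) ^ #S ≤ Real.exp (5 / 32 * N) := by
      have e0 : (128 : ℝ) ≤ Real.exp 5 := by
        have := Real.exp_one_gt_d9
        have h27 : (2.7 : ℝ) ≤ Real.exp 1 := by linarith
        calc (128 : ℝ) ≤ 2.7 ^ 5 := by norm_num
          _ ≤ (Real.exp 1) ^ 5 := pow_le_pow_left₀ (by norm_num) h27 5
          _ = Real.exp 5 := by rw [← Real.exp_nat_mul]; norm_num
      calc (128 : ℝ) ^ #S ≤ (Real.exp 5) ^ #S := pow_le_pow_left₀ (by norm_num) e0 _
        _ = Real.exp (#S * 5) := by rw [← Real.exp_nat_mul]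
        _ ≤ _ := by
          apply Real.exp_le_exp.2
          have : (32 * #S : ℝ) ≤ N := by exact_mod_cast hS32
          linarith
    have h6 : (#(fa S) : ℝ) = #(fa S) * (1 / 4) ^ #S * (128 ^ #S * (1 / 32) ^ #S) := by
      rw [← mul_pow, mul_assoc, ← mul_pow]; norm_num
    rw [h6]
    calc (#(fa S) : ℝ) * (1 / 4) ^ #S * (128 ^ #S * (1 / 32) ^ #S)
        ≤ cΩ * Real.exp (-(9 / 32 * N)) * (Real.exp (5 / 32 * N) * (1 / 32) ^ #S) := by
          apply mul_le_mul h2 _ (by positivity) (by positivity)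
          exact mul_le_mul_of_nonneg_right h5 (by positivity)
      _ = cΩ * (Real.exp (-(9 / 32 * N)) * Real.exp (5 / 32 * N) * (1 / 32) ^ #S) := by ring
      _ = _ := by rw [← Real.exp_add]; congr 3; ring_nf
  set lam : ℝ := N * E with hlam
  have hlam0 : 0 < lam := by positivity
  have hNlam : N * lam ≤ 1 := by
    rw [hlam]; calc (N : ℝ) * (N * E) = N ^ 2 * E := by ring
      _ ≤ 1 := hsmall
  have hlam1 : lam ≤ 1 := by
    have : lam ≤ N * lam := by nlinarith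
    linarith
  have hB' : ∀ S ∈ PB, (#(fb S) : ℝ) ≤ cΩ * (Real.exp 1 * lam * lam ^ (#F - #S)) := by
    intro S hS
    obtain ⟨hS, hS32⟩ := mem_filter.1 hS
    rw [mem_powerset] at hS
    have hSF : #S ≤ #F := card_le_card hS
    have hS1 : 0 < #S := by omega
    have hm := moment_b (M := M) hM hB huu S hS hS1 hL lam hlam0.le hlam1
    have hmk := markov (fun ω : Ω => #(S.biUnion fun v => Al B L ω u v)) (N - (#F - #S) - 1)
      lam hlam0 hlam1
    have h1 := (hmk.trans hm).trans (mul_le_mul_of_nonneg_left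
      (num_b q hq0 hq1 N #S (by omega) hS32 lam hlam hlam1) hcΩ0)
    have hle : N = (N - (#F - #S) - 1) + ((#F - #S) + 1) := by omega
    have h2 : lam ^ N = lam ^ (N - (#F - #S) - 1) * lam ^ ((#F - #S) + 1) := by
      rw [← pow_add, ← hle]
    have hpos : 0 < lam ^ (N - (#F - #S) - 1) := by positivity
    have h3 : (#(fb S) : ℝ) * lam ^ (N - (#F - #S) - 1)
        ≤ (cΩ * (Real.exp 1 * lam * lam ^ (#F - #S))) * lam ^ (N - (#F - #S) - 1) := by
      refine h1.trans (le_of_eq ?_)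
      rw [h2, pow_succ]; ring
    exact le_of_mul_le_mul_right h3 hpos
  -- sums
  have hsum1 : ∑ S ∈ PA1, (#(fa S) : ℝ) ≤ cΩ * (Real.exp 1 * (N ^ 2 * E)) := by
    set x : ℝ := N * Real.exp (-(q * N / 4)) with hx
    have hx0 : 0 < x := by positivity
    have hxE : Real.exp (-(q * N / 4)) ≤ E := by
      apply Real.exp_le_exp.2
      have : 0 ≤ q * N := by positivity
      linarith
    have hNx : N * x ≤ N ^ 2 * E := by
      rw [hx]
      calc (N : ℝ) * (N * Real.exp (-(q * N / 4))) = N ^ 2 * Real.exp (-(q * N / 4)) := by ring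
        _ ≤ N ^ 2 * E := mul_le_mul_of_nonneg_left hxE (by positivity)
    have hNx1 : N * x ≤ 1 := hNx.trans hsmall
    have h1 : ∀ S ∈ PA1, (#(fa S) : ℝ) ≤ cΩ * ((N * x) * (1 / N) ^ #S) := by
      intro S hS
      refine (hA1 S hS).trans (mul_le_mul_of_nonneg_left ?_ hcΩ0)
      have hS1 := (mem_filter.1 hS).2.1
      have e1 : x ^ #S = (N * x) ^ #S * (1 / N) ^ #S := by
        rw [← mul_pow]; congr 1; field_simp
      rw [e1]
      apply mul_le_mul_of_nonneg_right _ (by positivity)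
      calc (N * x) ^ #S ≤ (N * x) ^ 1 := pow_le_pow_of_le_one (by positivity) hNx1 hS1
        _ = _ := pow_one _
    calc ∑ S ∈ PA1, (#(fa S) : ℝ) ≤ ∑ S ∈ PA1, cΩ * ((N * x) * (1 / N) ^ #S) := sum_le_sum h1
      _ ≤ ∑ S ∈ F.powerset, cΩ * ((N * x) * (1 / N) ^ #S) :=
          sum_le_sum_of_subset_of_nonneg (filter_subset _ _) fun _ _ _ => by positivity
      _ = cΩ * ((N * x) * (1 / N + 1) ^ #F) := by
          rw [← mul_sum, ← mul_sum, sum_pow_card]
      _ ≤ cΩ * ((N ^ 2 * E) * Real.exp 1) := by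
          apply mul_le_mul_of_nonneg_left _ hcΩ0
          apply mul_le_mul hNx _ (by positivity) (by positivity)
          have h4 := Real.add_one_le_exp (1 / (N : ℝ))
          calc (1 / (N : ℝ) + 1) ^ #F ≤ (1 / (N : ℝ) + 1) ^ N :=
                pow_le_pow_right₀ (by
                  have : 0 ≤ 1 / (N : ℝ) := by positivity
                  linarith) (by omega)
            _ ≤ (Real.exp (1 / (N : ℝ))) ^ N := pow_le_pow_left₀ (by positivity) h4 N
            _ = Real.exp 1 := by rw [← Real.exp_nat_mul]; congr 1; field_simp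
      _ = _ := by ring
  have hsum2 : ∑ S ∈ PA2, (#(fa S) : ℝ) ≤ cΩ * E := by
    calc ∑ S ∈ PA2, (#(fa S) : ℝ)
        ≤ ∑ S ∈ PA2, cΩ * (Real.exp (-(4 / 32 * N)) * (1 / 32) ^ #S) := sum_le_sum hA2
      _ ≤ ∑ S ∈ F.powerset, cΩ * (Real.exp (-(4 / 32 * N)) * (1 / 32) ^ #S) :=
          sum_le_sum_of_subset_of_nonneg (filter_subset _ _) fun _ _ _ => by positivity
      _ = cΩ * (Real.exp (-(4 / 32 * N)) * (1 / 32 + 1) ^ #F) := by
          rw [← mul_sum, ← mul_sum, sum_pow_card]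
      _ ≤ cΩ * (Real.exp (-(4 / 32 * N)) * Real.exp (1 / 32 * N)) := by
          apply mul_le_mul_of_nonneg_left _ hcΩ0
          apply mul_le_mul_of_nonneg_left _ (by positivity)
          have h4 := Real.add_one_le_exp (1 / 32 : ℝ)
          calc (1 / 32 + 1 : ℝ) ^ #F ≤ (1 / 32 + 1 : ℝ) ^ N :=
                pow_le_pow_right₀ (by norm_num) (by omega)
            _ ≤ (Real.exp (1 / 32)) ^ N := pow_le_pow_left₀ (by positivity) h4 N
            _ = _ := by rw [← Real.exp_nat_mul]; congr 1; ring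
      _ ≤ cΩ * E := by
          apply mul_le_mul_of_nonneg_left _ hcΩ0
          rw [← Real.exp_add, hE]
          apply Real.exp_le_exp.2
          have : q * N ≤ 3 / 16 * N := mul_le_mul_of_nonneg_right hq316 (by positivity)
          linarith
  have hsum3 : ∑ S ∈ PB, (#(fb S) : ℝ) ≤ cΩ * (Real.exp 1 * Real.exp 1 * (N * E)) := by
    calc ∑ S ∈ PB, (#(fb S) : ℝ)
        ≤ ∑ S ∈ PB, cΩ * (Real.exp 1 * lam * lam ^ (#F - #S)) := sum_le_sum hB'
      _ ≤ ∑ S ∈ F.powerset, cΩ * (Real.exp 1 * lam * lam ^ (#F - #S)) :=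
          sum_le_sum_of_subset_of_nonneg (filter_subset _ _) fun _ _ _ => by positivity
      _ = cΩ * (Real.exp 1 * lam * (1 + lam) ^ #F) := by
          rw [← mul_sum, ← mul_sum, sum_pow_card']
      _ ≤ cΩ * (Real.exp 1 * lam * Real.exp 1) := by
          apply mul_le_mul_of_nonneg_left _ hcΩ0
          apply mul_le_mul_of_nonneg_left _ (by positivity)
          have h4 := Real.add_one_le_exp lam
          calc (1 + lam) ^ #F ≤ (1 + lam) ^ N :=
                pow_le_pow_right₀ (by linarith) (by omega)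
            _ ≤ (Real.exp lam) ^ N := pow_le_pow_left₀ (by positivity) (by linarith) N
            _ = Real.exp (N * lam) := by rw [← Real.exp_nat_mul]
            _ ≤ Real.exp 1 := Real.exp_le_exp.2 hNlam
      _ = _ := by rw [hlam]; ring
  have hfin : Real.exp 1 * (N ^ 2 * E) + E + Real.exp 1 * Real.exp 1 * (N * E)
      ≤ 12 * (N : ℝ) ^ 2 * E := by
    have he : Real.exp 1 < 2.7182818286 := Real.exp_one_lt_d9
    have he0 : 0 < Real.exp 1 := Real.exp_pos 1
    have he2 : Real.exp 1 * Real.exp 1 ≤ 7.5 := by nlinarith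
    have hN2 : (N : ℝ) ≤ N ^ 2 / 3 := by nlinarith
    have hN1 : (1 : ℝ) ≤ N ^ 2 / 9 := by nlinarith
    have hcoef : Real.exp 1 * N ^ 2 + 1 + Real.exp 1 * Real.exp 1 * N ≤ 12 * (N : ℝ) ^ 2 := by
      have a1 : Real.exp 1 * (N : ℝ) ^ 2 ≤ 2.72 * N ^ 2 :=
        mul_le_mul_of_nonneg_right (by linarith) (by positivity)
      have a2 : Real.exp 1 * Real.exp 1 * (N : ℝ) ≤ 7.5 * N :=
        mul_le_mul_of_nonneg_right he2 (by positivity)
      nlinarith
    calc Real.exp 1 * (N ^ 2 * E) + E + Real.exp 1 * Real.exp 1 * (N * E)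
        = (Real.exp 1 * N ^ 2 + 1 + Real.exp 1 * Real.exp 1 * N) * E := by ring
      _ ≤ 12 * (N : ℝ) ^ 2 * E := mul_le_mul_of_nonneg_right hcoef hE0.le
  calc (#(univ.filter fun ω : Ω => ¬ Good B L Nf u ω) : ℝ)
      ≤ cΩ * (Real.exp 1 * (N ^ 2 * E)) + cΩ * E + cΩ * (Real.exp 1 * Real.exp 1 * (N * E)) :=
        hcard.trans (add_le_add (add_le_add hsum1 hsum2) hsum3)
    _ = cΩ * (Real.exp 1 * (N ^ 2 * E) + E + Real.exp 1 * Real.exp 1 * (N * E)) := by ring
    _ ≤ _ := mul_le_mul_of_nonneg_left hfin hcΩ0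

end Pool.Agent.Helper21.LEC
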