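import Mathlib
import Pool.Agent.Helper21.LEC.Bad
import Pool.Agent.Helper86.BF.LLL

/-!
Application of the local lemma.
-/

set_option autoImplicit false
set_option linter.unusedSectionVars false

namespace Pool.Agent.Helper21.LEC

open Finset Pool.Agent.Helper86.BF

variable {V : Type*} [Fintype V] [DecidableEq V] {C : Type*} [Fintype C] [DecidableEq C]

theorem good_dep {M : ℕ} [NeZero M] (B : V → Finset V) (L : V → V → Finset C) (N : V → ℕ) (u : V)
    (ω ω' : V → C → V → Fin M) (h : ∀ v ∈ insert u (fw B u), ω v = ω' v) :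
    Good B L N u ω ↔ Good B L N u ω' := by
  have hQ : Qu B ω u = Qu B ω' u := by
    unfold Qu; rw [h u (mem_insert_self _ _)]
  have hA : ∀ v ∈ fw B u, Al B L ω u v = Al B L ω' u v := by
    intro v hv; unfold Al; rw [h v (mem_insert_of_mem hv)]
  unfold Good
  apply forall_congr'; intro S
  apply forall_congr'; intro hS
  have e1 : (S.biUnion fun v => Al B L ω u v \ Qu B ω u)
      = S.biUnion fun v => Al B L ω' u v \ Qu B ω' u := by
    apply biUnion_congr rfl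
    intro v hv; rw [hQ, hA v (hS hv)]
  have e2 : (S.biUnion fun v => Al B L ω u v) = S.biUnion fun v => Al B L ω' u v := by
    apply biUnion_congr rfl
    intro v hv; rw [hA v (hS hv)]
  rw [e1, e2]

open Classical in
theorem exists_good [Nonempty V] {B : V → Finset V} {L : V → V → Finset C}
    {Nf : V → ℕ} {k D M : ℕ} [NeZero M] (hM : M = 4 * k) (hB : ∀ v, #(B v) ≤ k)
    (huu : ∀ u, u ∉ B u)
    (hL : ∀ u, ∀ v ∈ fw B u, #(L u v) = Nf u) (hdeg : ∀ u, #(fw B u) + #(B u) ≤ Nf u)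
    (hfw : ∀ u, #(fw B u) ≤ D) (hN3 : ∀ u, 3 ≤ Nf u)
    (hnum : ∀ u, 48 * ((D : ℝ) + 1) * (k + 1) * (Nf u : ℝ) ^ 2 *
      Real.exp (-(3 / (16 * (k : ℝ)) * Nf u / 32)) ≤ 1) :
    ∃ ω : V → C → V → Fin M, ∀ u, Good B L Nf u ω := by
  set Bd : V → Finset (V → C → V → Fin M) := fun u => univ.filter fun ω => ¬ Good B L Nf u ω
    with hBd
  set Ds : V → Finset V := fun u => insert u (fw B u) with hDs
  have hdep : ∀ j, DepOn (Ds j) (fun ω => ω ∈ Bd j) := by
    intro j ω ω' h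
    simp only [hBd, mem_filter, mem_univ, true_and, eq_iff_iff]
    rw [good_dep B L Nf j ω ω' h]
  have hd0 : 0 < (D + 1) * (k + 1) := by positivity
  have hcount : ∀ j, #(univ.filter fun j' => ¬ Disjoint (Ds j) (Ds j')) ≤ (D + 1) * (k + 1) := by
    intro j
    have hsub : (univ.filter fun j' => ¬ Disjoint (Ds j) (Ds j'))
        ⊆ (Ds j).biUnion fun v => insert v (B v) := by
      intro j' hj'
      rw [mem_filter, Finset.not_disjoint_iff] at hj'
      obtain ⟨_, v, hv, hv'⟩ := hj'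
      rw [mem_biUnion]
      refine ⟨v, hv, ?_⟩
      rcases mem_insert.1 hv' with rfl | h
      · exact mem_insert_self _ _
      · exact mem_insert_of_mem (mem_fw.1 h)
    refine (card_le_card hsub).trans (card_biUnion_le.trans ?_)
    calc ∑ v ∈ Ds j, #(insert v (B v)) ≤ ∑ v ∈ Ds j, (k + 1) := by
          apply sum_le_sum
          intro v _
          exact (card_insert_le _ _).trans (Nat.add_le_add_right (hB v) 1)
      _ = #(Ds j) * (k + 1) := by rw [sum_const, smul_eq_mul]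
      _ ≤ (D + 1) * (k + 1) := by
          apply Nat.mul_le_mul_right
          exact (card_insert_le _ _).trans (Nat.add_le_add_right (hfw j) 1)
  have hp : ∀ j, 4 * ((D + 1) * (k + 1)) * #(Bd j) ≤ Fintype.card (V → C → V → Fin M) := by
    intro j
    have hE0 : 0 < Real.exp (-(3 / (16 * (k : ℝ)) * Nf j / 32)) := Real.exp_pos _
    have hnj := hnum j
    have hsmall : (Nf j : ℝ) ^ 2 * Real.exp (-(3 / (16 * (k : ℝ)) * Nf j / 32)) ≤ 1 := by
      refine le_trans ?_ hnj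
      have h1 : (1 : ℝ) ≤ 48 * ((D : ℝ) + 1) * (k + 1) := by
        have hD : (0 : ℝ) ≤ D := by positivity
        have hk : (0 : ℝ) ≤ k := by positivity
        nlinarith [mul_nonneg hD hk]
      have h2 : 0 ≤ (Nf j : ℝ) ^ 2 * Real.exp (-(3 / (16 * (k : ℝ)) * Nf j / 32)) := by positivity
      calc (Nf j : ℝ) ^ 2 * Real.exp (-(3 / (16 * (k : ℝ)) * Nf j / 32))
          = 1 * ((Nf j : ℝ) ^ 2 * Real.exp (-(3 / (16 * (k : ℝ)) * Nf j / 32))) := by ring
        _ ≤ (48 * ((D : ℝ) + 1) * (k + 1)) *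
            ((Nf j : ℝ) ^ 2 * Real.exp (-(3 / (16 * (k : ℝ)) * Nf j / 32))) :=
            mul_le_mul_of_nonneg_right h1 h2
        _ = _ := by ring
    have hb := bad_bound (M := M) (L := L) (Nf := Nf) (u := j) hM hB (huu j) (hL j) (hdeg j)
      (hN3 j) hsmall
    have hc : (0 : ℝ) ≤ Fintype.card (V → C → V → Fin M) := by positivity
    have h3 : (4 * (((D : ℝ) + 1) * (k + 1))) * (#(Bd j) : ℝ)
        ≤ Fintype.card (V → C → V → Fin M) := by
      calc (4 * (((D : ℝ) + 1) * (k + 1))) * (#(Bd j) : ℝ)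
          ≤ (4 * (((D : ℝ) + 1) * (k + 1))) * (Fintype.card (V → C → V → Fin M) *
            (12 * (Nf j : ℝ) ^ 2 * Real.exp (-(3 / (16 * (k : ℝ)) * Nf j / 32)))) :=
            mul_le_mul_of_nonneg_left hb (by positivity)
        _ = Fintype.card (V → C → V → Fin M) * (48 * ((D : ℝ) + 1) * (k + 1) * (Nf j : ℝ) ^ 2 *
            Real.exp (-(3 / (16 * (k : ℝ)) * Nf j / 32))) := by ring
        _ ≤ Fintype.card (V → C → V → Fin M) * 1 := mul_le_mul_of_nonneg_left hnj hc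
        _ = _ := mul_one _
    have h4 : (((4 * ((D + 1) * (k + 1)) * #(Bd j) : ℕ)) : ℝ)
        ≤ ((Fintype.card (V → C → V → Fin M) : ℕ) : ℝ) := by
      push_cast
      exact h3
    exact_mod_cast h4
  obtain ⟨ω, hω⟩ := lll Bd Ds hdep ((D + 1) * (k + 1)) hd0 hp hcount
  refine ⟨ω, fun u => ?_⟩
  have := hω u
  rw [hBd, mem_filter] at this
  by_contra hcon
  exact this ⟨mem_univ _, hcon⟩

/-- numerical condition -/
theorem num_ok {k N D : ℕ} (hk : 1 ≤ k) (hDN : D ≤ N) (hN : 3 ≤ N)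
    (h : 700 * (k : ℝ) * Real.log N ≤ N) :
    48 * ((D : ℝ) + 1) * (k + 1) * (N : ℝ) ^ 2 *
      Real.exp (-(3 / (16 * (k : ℝ)) * N / 32)) ≤ 1 := by
  have hkr : (1 : ℝ) ≤ k := by exact_mod_cast hk
  have hNr : (3 : ℝ) ≤ N := by exact_mod_cast hN
  have hDr : (D : ℝ) ≤ N := by exact_mod_cast hDN
  have hlog1 : 1 ≤ Real.log N := by
    rw [Real.le_log_iff_exp_le (by linarith)]
    exact (Real.exp_one_lt_d9.le.trans (by norm_num)).trans hNr
  have hNk : 700 * (k : ℝ) ≤ N := by nlinarith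
  have h1 : 4 * Real.log N ≤ 3 / (16 * (k : ℝ)) * N / 32 := by
    rw [div_mul_eq_mul_div, div_div, le_div_iff₀ (by positivity)]
    nlinarith
  have h2 : Real.exp (-(3 / (16 * (k : ℝ)) * N / 32)) ≤ Real.exp (-(4 * Real.log N)) :=
    Real.exp_le_exp.2 (by linarith)
  have h3 : Real.exp (-(4 * Real.log N)) = 1 / (N : ℝ) ^ 4 := by
    rw [Real.exp_neg, one_div]; congr 1
    have : (4 : ℝ) * Real.log N = ((4 : ℕ) : ℝ) * Real.log N := by norm_num
    rw [this, Real.exp_nat_mul, Real.exp_log (by linarith)]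
  rw [h3] at h2
  have h4 : 48 * ((D : ℝ) + 1) * (k + 1) * (N : ℝ) ^ 2 ≤ (N : ℝ) ^ 4 := by
    have e1 : (D : ℝ) + 1 ≤ 2 * N := by linarith
    have e2 : 48 * ((k : ℝ) + 1) ≤ N / 7 := by linarith
    have e3 : 48 * ((k : ℝ) + 1) * ((D : ℝ) + 1) ≤ N / 7 * (2 * N) :=
      mul_le_mul e2 e1 (by positivity) (by positivity)
    have e4 : 48 * ((k : ℝ) + 1) * ((D : ℝ) + 1) ≤ N ^ 2 := by nlinarith
    calc 48 * ((D : ℝ) + 1) * (k + 1) * (N : ℝ) ^ 2
        = (48 * ((k : ℝ) + 1) * ((D : ℝ) + 1)) * (N : ℝ) ^ 2 := by ring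
      _ ≤ (N : ℝ) ^ 2 * (N : ℝ) ^ 2 := mul_le_mul_of_nonneg_right e4 (by positivity)
      _ = (N : ℝ) ^ 4 := by ring
  calc 48 * ((D : ℝ) + 1) * (k + 1) * (N : ℝ) ^ 2 * Real.exp (-(3 / (16 * (k : ℝ)) * N / 32))
      ≤ (N : ℝ) ^ 4 * (1 / (N : ℝ) ^ 4) :=
        mul_le_mul h4 h2 (Real.exp_pos _).le (by positivity)
    _ = 1 := by field_simp

end Pool.Agent.Helper21.LEC
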