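import Mathlib
import Pool.Agent.Helper21.LEC.Main

/-!
From pairs to graphs.
-/

set_option autoImplicit false
set_option linter.unusedSectionVars false

namespace Pool.Agent.Helper21.LEC

open Finset

variable {V : Type*} [Fintype V] [DecidableEq V]

/-- ordering with few earlier neighbours -/
theorem exists_rank (G : SimpleGraph V) [DecidableRel G.Adj] (d : ℕ)
    (h : ∀ W : Finset V, W.Nonempty → ∃ v ∈ W, #(W.filter (G.Adj v)) ≤ d) :
    ∃ r : V → ℕ, Function.Injective r ∧
      ∀ v, #(univ.filter fun w => G.Adj v w ∧ r w < r v) ≤ d := by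
  have main : ∀ m : ℕ, ∀ W : Finset V, #W = m → ∃ r : V → ℕ, Set.InjOn r W ∧
      (∀ v ∈ W, r v < m) ∧ ∀ v ∈ W, #(W.filter fun w => G.Adj v w ∧ r w < r v) ≤ d := by
    intro m
    induction m with
    | zero =>
      intro W hW
      rw [card_eq_zero] at hW
      subst hW
      exact ⟨fun _ => 0, by simp, by simp, by simp⟩
    | succ m ih =>
      intro W hW
      have hne : W.Nonempty := by rw [← card_pos]; omega
      obtain ⟨v0, hv0, hd⟩ := h W hne
      obtain ⟨r, h1, h2, h3⟩ := ih (W.erase v0) (by rw [card_erase_of_mem hv0]; omega)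
      refine ⟨fun v => if v = v0 then m else r v, ?_, ?_, ?_⟩
      · intro a ha b hb hab
        by_cases ca : a = v0 <;> by_cases cb : b = v0
        · rw [ca, cb]
        · simp only [ca, cb, if_true, if_false] at hab
          have := h2 b (mem_erase.2 ⟨cb, hb⟩)
          omega
        · simp only [ca, cb, if_true, if_false] at hab
          have := h2 a (mem_erase.2 ⟨ca, ha⟩)
          omega
        · simp only [ca, cb, if_false] at hab
          exact h1 (mem_coe.2 (mem_erase.2 ⟨ca, ha⟩)) (mem_coe.2 (mem_erase.2 ⟨cb, hb⟩)) hab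
      · intro v hv
        by_cases c : v = v0
        · simp [c]
        · simp only [c, if_false]
          have := h2 v (mem_erase.2 ⟨c, hv⟩)
          omega
      · intro v hv
        by_cases c : v = v0
        · subst c
          refine (card_le_card ?_).trans hd
          intro w hw
          rw [mem_filter] at *
          exact ⟨hw.1, hw.2.1⟩
        · refine (card_le_card ?_).trans (h3 v (mem_erase.2 ⟨c, hv⟩))
          intro w hw
          rw [mem_filter] at *
          simp only [c, if_false] at hw
          have hvm := h2 v (mem_erase.2 ⟨c, hv⟩)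
          by_cases cw : w = v0
          · simp only [cw, if_true] at hw
            omega
          · simp only [cw, if_false] at hw
            exact ⟨mem_erase.2 ⟨cw, hw.1⟩, hw.2⟩
  obtain ⟨r, h1, -, h3⟩ := main _ univ rfl
  exact ⟨r, fun a b hab => h1 (mem_coe.2 (mem_univ a)) (mem_coe.2 (mem_univ b)) hab,
    fun v => h3 v (mem_univ v)⟩

/-- main list colouring statement, lists of size at least `Δ` -/
theorem list_colour (G : SimpleGraph V) [DecidableRel G.Adj] (d : ℕ)
    (h : ∀ W : Finset V, W.Nonempty → ∃ v ∈ W, #(W.filter (G.Adj v)) ≤ d)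
    (hd : 1 ≤ d) (hΔ : 3 ≤ G.maxDegree)
    (hlog : 700 * (d : ℝ) * Real.log G.maxDegree ≤ G.maxDegree)
    (L : G.edgeSet → Finset ℕ) (hL : ∀ e, G.maxDegree ≤ #(L e)) :
    ∃ f : G.edgeSet → ℕ, (∀ e, f e ∈ L e) ∧
      ∀ e e', G.lineGraph.Adj e e' → f e ≠ f e' := by
  classical
  obtain ⟨r, hr, hrd⟩ := exists_rank G d h
  set N := G.maxDegree with hN
  have hne : Nonempty V := by
    by_contra hcon
    rw [not_nonempty_iff] at hcon
    have : G.maxDegree = 0 := by simp [SimpleGraph.maxDegree]
    omega
  -- truncated lists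
  have hT : ∀ e : G.edgeSet, ∃ T ⊆ L e, #T = N := fun e => exists_subset_card_eq (hL e)
  choose T hTL hTc using hT
  set K : ℕ := (univ.biUnion L).sup id + 1 with hK
  have hKlt : ∀ e : G.edgeSet, ∀ c ∈ T e, c < K := by
    intro e c hc
    have : c ≤ (univ.biUnion L).sup id :=
      le_sup (f := id) (mem_biUnion.2 ⟨e, mem_univ _, hTL e hc⟩)
    omega
  have : Nonempty (Fin K) := ⟨⟨0, by omega⟩⟩
  set B : V → Finset V := fun v => univ.filter fun w => G.Adj v w ∧ r w < r v with hB
  have memB : ∀ {u v}, u ∈ B v ↔ G.Adj v u ∧ r u < r v := by intro u v; simp [hB]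
  set L' : V → V → Finset (Fin K) := fun u v =>
    if huv : G.Adj u v then (T ⟨s(u, v), huv⟩).attachFin (hKlt _) else ∅ with hL'
  have hL'c : ∀ u, ∀ v ∈ fw B u, #(L' u v) = N := by
    intro u v hv
    have huv : G.Adj u v := (memB.1 (mem_fw.1 hv)).1.symm
    simp only [hL', huv, dif_pos]
    rw [card_attachFin, hTc]
  have hdeg : ∀ u, #(fw B u) + #(B u) ≤ N := by
    intro u
    have hdis : Disjoint (fw B u) (B u) := by
      rw [Finset.disjoint_left]
      intro v hv hv'
      have h1 := (memB.1 (mem_fw.1 hv)).2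
      have h2 := (memB.1 hv').2
      omega
    rw [← card_union_of_disjoint hdis]
    refine le_trans (card_le_card ?_) (G.degree_le_maxDegree u)
    intro v hv
    rw [SimpleGraph.mem_neighborFinset]
    rcases mem_union.1 hv with hv | hv
    · exact (memB.1 (mem_fw.1 hv)).1.symm
    · exact (memB.1 hv).1
  have hfw : ∀ u, #(fw B u) ≤ N := fun u => by have := hdeg u; omega
  have : NeZero (4 * d) := ⟨by omega⟩
  obtain ⟨ω, hω⟩ := exists_good (V := V) (C := Fin K) (B := B) (L := L') (Nf := fun _ => N)
    (k := d) (D := N) (M := 4 * d) rfl hrd (fun u hu => by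
      have := (memB.1 hu).2; omega) hL'c hdeg hfw (fun _ => hΔ) (fun _ => num_ok hd le_rfl hΔ hlog)
  obtain ⟨φ, hφ1, hφ2, hφ3, hφ4⟩ := exists_colouring r hr (fun v u hu => (memB.1 hu).2) hω
  -- representatives
  have hrep : ∀ e : G.edgeSet, ∃ u v, u ∈ B v ∧ e.1 = s(u, v) := by
    rintro ⟨e, he⟩
    induction e with
    | _ a b =>
      have hab : G.Adj a b := he
      have hne : r a ≠ r b := fun hh => hab.ne (hr hh)
      rcases lt_or_gt_of_ne hne with hlt | hlt
      · exact ⟨a, b, memB.2 ⟨hab.symm, hlt⟩, rfl⟩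
      · exact ⟨b, a, memB.2 ⟨hab, hlt⟩, Sym2.eq_swap⟩
  choose p q hpq he using hrep
  refine ⟨fun e => (φ (p e) (q e)).1, ?_, ?_⟩
  · intro e
    have h1 := hφ1 (q e) (p e) (hpq e)
    have hadj : G.Adj (p e) (q e) := (memB.1 (hpq e)).1.symm
    simp only [hL', hadj, dif_pos] at h1
    rw [mem_attachFin] at h1
    have h2 : (⟨s(p e, q e), hadj⟩ : G.edgeSet) = e := Subtype.ext (he e).symm
    rw [h2] at h1
    exact hTL e h1
  · intro e e' hadj heq
    have heq : φ (p e) (q e) = φ (p e') (q e') := Fin.ext heq
    rw [SimpleGraph.lineGraph_adj_iff_exists] at hadj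
    obtain ⟨hne, x, hx, hx'⟩ := hadj
    rw [he e, Sym2.mem_iff] at hx
    rw [he e', Sym2.mem_iff] at hx'
    have hne' : ¬ (p e = p e' ∧ q e = q e') := by
      rintro ⟨h1, h2⟩
      apply hne
      apply Subtype.ext
      rw [he e, he e', h1, h2]
    rcases hx with hx | hx <;> rcases hx' with hx' | hx'
    · -- common earlier endpoint
      have hp : p e = p e' := hx.symm.trans hx'
      apply hne'
      refine ⟨hp, hφ3 (p e) (q e) (mem_fw.2 (hpq e)) (q e') (mem_fw.2 (hp ▸ hpq e')) ?_⟩
      rw [heq, hp]
    · -- p e = q e'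
      have hp : p e = q e' := hx.symm.trans hx'
      refine hφ4 (p e) (p e') (hp ▸ hpq e') (q e) (mem_fw.2 (hpq e)) ?_
      rw [heq, hp]
    · have hp : q e = p e' := hx.symm.trans hx'
      refine hφ4 (p e') (p e) (hp ▸ hpq e) (q e') (mem_fw.2 (hpq e')) ?_
      rw [← heq, hp]
    · have hp : q e = q e' := hx.symm.trans hx'
      apply hne'
      refine ⟨hφ2 (q e) (p e) (hpq e) (p e') (hp ▸ hpq e') ?_, hp⟩
      rw [heq, hp]

/-- lower bound -/
theorem maxDegree_le_of_colorable (G : SimpleGraph V) [DecidableRel G.Adj] (n : ℕ)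
    (h : G.lineGraph.Colorable n) : G.maxDegree ≤ n := by
  classical
  obtain ⟨c⟩ := h
  apply G.maxDegree_le_of_forall_degree_le
  intro v
  have hinj : Set.InjOn (fun w => if hw : G.Adj v w then (c ⟨s(v, w), hw⟩ : Fin n).1 else 0)
      (G.neighborFinset v) := by
    intro a ha b hb hab
    have ha : G.Adj v a := by simpa using ha
    have hb : G.Adj v b := by simpa using hb
    simp only [ha, hb, dif_pos] at hab
    by_contra hne
    have : G.lineGraph.Adj ⟨s(v, a), ha⟩ ⟨s(v, b), hb⟩ := by
      rw [SimpleGraph.lineGraph_adj_iff_exists]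
      refine ⟨?_, v, by simp, by simp⟩
      intro hh
      have hh' : s(v, a) = s(v, b) := congrArg Subtype.val hh
      rw [Sym2.congr_right] at hh'
      exact hne hh'
    exact c.valid this (Fin.ext hab)
  have hmaps : ∀ w ∈ G.neighborFinset v,
      (if hw : G.Adj v w then (c ⟨s(v, w), hw⟩ : Fin n).1 else 0) ∈ range n := by
    intro w hw
    have hw : G.Adj v w := by simpa using hw
    simp only [hw, dif_pos, mem_range]
    exact (c ⟨s(v, w), hw⟩).2
  have := card_le_card_of_injOn _ hmaps hinj
  rw [card_range] at this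
  exact this

/-- The list edge colouring statement for graphs of small degeneracy. -/
theorem final (G : SimpleGraph V) [DecidableRel G.Adj] (d : ℕ)
    (h : ∀ W : Finset V, W.Nonempty → ∃ v ∈ W, #(W.filter (G.Adj v)) ≤ d)
    (hlog : 700 * (d : ℝ) * Real.log G.maxDegree ≤ G.maxDegree) (n : ℕ) :
    (G.lineGraph.Colorable n ↔ ∀ L : G.edgeSet → Finset ℕ, (∀ e, n ≤ #(L e)) →
      ∃ f : G.edgeSet → ℕ, (∀ e, f e ∈ L e) ∧ ∀ e e', G.lineGraph.Adj e e' → f e ≠ f e') ∧
    (G.lineGraph.Colorable n ↔ G.maxDegree ≤ n) := by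
  classical
  -- list colourable gives colourable
  have h1 : (∀ L : G.edgeSet → Finset ℕ, (∀ e, n ≤ #(L e)) →
      ∃ f : G.edgeSet → ℕ, (∀ e, f e ∈ L e) ∧ ∀ e e', G.lineGraph.Adj e e' → f e ≠ f e') →
      G.lineGraph.Colorable n := by
    intro hh
    obtain ⟨f, hf, hf'⟩ := hh (fun _ => range n) (fun _ => by rw [card_range])
    exact ⟨SimpleGraph.Coloring.mk (fun e => (⟨f e, mem_range.1 (hf e)⟩ : Fin n))
      (fun {a b} hab hcon => hf' a b hab (by simpa using hcon))⟩
  have h2 : G.maxDegree ≤ n → ∀ L : G.edgeSet → Finset ℕ, (∀ e, n ≤ #(L e)) →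
      ∃ f : G.edgeSet → ℕ, (∀ e, f e ∈ L e) ∧
        ∀ e e', G.lineGraph.Adj e e' → f e ≠ f e' := by
    intro hn L hL
    by_cases hΔ : G.maxDegree ≤ 1
    · -- no two adjacent edges
      have hno : ∀ e e' : G.edgeSet, ¬ G.lineGraph.Adj e e' := by
        rintro ⟨e, he⟩ ⟨e', he'⟩ hadj
        rw [SimpleGraph.lineGraph_adj_iff_exists] at hadj
        obtain ⟨hne, x, hx, hx'⟩ := hadj
        obtain ⟨a, rfl⟩ := Sym2.mem_iff_exists.1 hx
        obtain ⟨b, rfl⟩ := Sym2.mem_iff_exists.1 hx'
        have hab : a ≠ b := fun hh => hne (by subst hh; rfl)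
        have hc : #({a, b} : Finset V) ≤ G.degree x := by
          apply card_le_card
          intro w hw
          rw [SimpleGraph.mem_neighborFinset]
          rcases mem_insert.1 hw with rfl | hw
          · exact he
          · rw [mem_singleton] at hw; subst hw; exact he'
        rw [card_pair hab] at hc
        have := G.degree_le_maxDegree x
        omega
      by_cases hΔ0 : G.maxDegree = 0
      · -- no edges
        have hemp : IsEmpty G.edgeSet := by
          constructor
          rintro ⟨e, he⟩
          induction e with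
          | _ a b =>
            have hab : G.Adj a b := he
            have h3 := G.degree_le_maxDegree a
            have h4 : 0 < G.degree a := (G.degree_pos_iff_exists_adj a).2 ⟨b, hab⟩
            omega
        exact ⟨fun e => (hemp.false e).elim, fun e => (hemp.false e).elim,
          fun e => (hemp.false e).elim⟩
      · have hpos : ∀ e, (L e).Nonempty := fun e => by
          rw [← card_pos]; have := hL e; omega
        exact ⟨fun e => (hpos e).choose, fun e => (hpos e).choose_spec,
          fun e e' hadj => absurd hadj (hno e e')⟩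
    · have hd : 1 ≤ d := by
        by_contra hd0
        have hd0 : d = 0 := by omega
        obtain ⟨r, hr, hrd⟩ := exists_rank G d h
        have hΔpos : 0 < G.maxDegree := by omega
        have hex : ∃ a b, G.Adj a b := by
          by_contra hcon
          push Not at hcon
          have : G.maxDegree ≤ 0 := G.maxDegree_le_of_forall_degree_le 0 (fun v => by
            by_contra hv
            obtain ⟨w, hw⟩ := (G.degree_pos_iff_exists_adj v).1 (by omega)
            exact hcon v w hw)
          omega
        obtain ⟨a, b, hab⟩ := hex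
        have hne : r a ≠ r b := fun hh => hab.ne (hr hh)
        rcases lt_or_gt_of_ne hne with hlt | hlt
        · have h5 := hrd b
          have h6 : 0 < #(univ.filter fun w => G.Adj b w ∧ r w < r b) :=
            card_pos.2 ⟨a, mem_filter.2 ⟨mem_univ _, hab.symm, hlt⟩⟩
          omega
        · have h5 := hrd a
          have h6 : 0 < #(univ.filter fun w => G.Adj a w ∧ r w < r a) :=
            card_pos.2 ⟨b, mem_filter.2 ⟨mem_univ _, hab, hlt⟩⟩
          omega
      have hΔ3 : 3 ≤ G.maxDegree := by
        by_contra hcon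
        have h2 : G.maxDegree = 2 := by omega
        rw [h2] at hlog
        have hdr : (1 : ℝ) ≤ d := by exact_mod_cast hd
        have hl2 := Real.log_two_gt_d9
        push_cast at hlog
        nlinarith
      exact list_colour G d h hd hΔ3 hlog L fun e => hn.trans (hL e)
  have h3 := maxDegree_le_of_colorable G n
  exact ⟨⟨fun hc => h2 (h3 hc), h1⟩, ⟨h3, fun hn => h1 (h2 hn)⟩⟩

end Pool.Agent.Helper21.LEC
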